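import Pool.Agent.Lib.MP_b2dc7d_gt.Bfun

set_option autoImplicit false
open Set

namespace Pool.Agent.SO

/-- functions on a group together with translations -/
@[ext] structure Aff (Γ : Type) where
  g : Γ
  f : Γ → ℝ

variable {Γ : Type} [Group Γ]

instance : Mul (Aff Γ) := ⟨fun x y => ⟨x.g * y.g, fun z => x.f z + y.f (z * x.g)⟩⟩
instance : One (Aff Γ) := ⟨⟨1, fun _ => 0⟩⟩
instance : Inv (Aff Γ) := ⟨fun x => ⟨x.g⁻¹, fun z => - x.f (z * x.g⁻¹)⟩⟩

theorem Aff.mul_g (x y : Aff Γ) : (x * y).g = x.g * y.g := rfl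
theorem Aff.mul_f (x y : Aff Γ) (z : Γ) : (x * y).f z = x.f z + y.f (z * x.g) := rfl
theorem Aff.one_g : (1 : Aff Γ).g = 1 := rfl
theorem Aff.one_f (z : Γ) : (1 : Aff Γ).f z = 0 := rfl
theorem Aff.inv_g (x : Aff Γ) : (x⁻¹).g = x.g⁻¹ := rfl
theorem Aff.inv_f (x : Aff Γ) (z : Γ) : (x⁻¹).f z = - x.f (z * x.g⁻¹) := rfl

instance : Group (Aff Γ) := Group.ofLeftAxioms
  (fun x y z => by
    ext
    · simp only [Aff.mul_g, mul_assoc]
    · simp only [Aff.mul_f, Aff.mul_g, mul_assoc, add_assoc])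
  (fun x => by
    ext
    · simp only [Aff.mul_g, Aff.one_g, one_mul]
    · simp only [Aff.mul_f, Aff.one_g, Aff.one_f, mul_one, zero_add])
  (fun x => by
    ext
    · simp only [Aff.mul_g, Aff.one_g, Aff.inv_g, inv_mul_cancel]
    · simp only [Aff.mul_f, Aff.inv_g, Aff.inv_f, Aff.one_f, neg_add_cancel])

/-- projection to the group -/
def Aff.fst : Aff Γ →* Γ where
  toFun x := x.g
  map_one' := rfl
  map_mul' _ _ := rfl

/-- Integration of a cocycle. -/
theorem integrate (Θ : Γ →* Aff Γ) (h : ∀ x, (Θ x).g = x) (r : ℝ) :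
    ∃ φ : Γ → ℝ, φ 1 = r ∧ ∀ x y, φ (y * x) - φ y = (Θ x).f y := by
  refine ⟨fun y => r + (Θ y).f 1, ?_, fun x y => ?_⟩
  · simp only [map_one, Aff.one_f, add_zero]
  · show (r + (Θ (y * x)).f 1) - (r + (Θ y).f 1) = (Θ x).f y
    rw [map_mul, Aff.mul_f, h, one_mul]; ring

/-- the free letters `a ^ j * b * a ^ (-j)` -/
def cw {H : Type} [Group H] (a b : H) (j : ℕ) : H := a ^ j * b * (a ^ j)⁻¹

/-- partial product of the word `W` -/
def Wp {H : Type} [Group H] (a b t : H) (k : ℕ) : ℕ → H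
  | 0 => 1
  | n + 1 => Wp a b t k n * (cw a b (Nat.pair k n) * t * (cw a b (Nat.pair k n))⁻¹)

/-- the word `W_k` -/
def Ww {H : Type} [Group H] (a b t : H) (k : ℕ) : H :=
  Wp a b t k (k + 3) * cw a b (Nat.pair k (k + 3))

theorem map_cw {H K : Type} [Group H] [Group K] (f : H →* K) (a b : H) (j : ℕ) :
    f (cw a b j) = cw (f a) (f b) j := by
  simp [cw]

theorem map_Wp {H K : Type} [Group H] [Group K] (f : H →* K) (a b t : H) (k n : ℕ) :
    f (Wp a b t k n) = Wp (f a) (f b) (f t) k n := by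
  induction n with
  | zero => simp [Wp]
  | succ n ih => simp only [Wp, map_mul, map_inv, map_cw, ih]

theorem map_Ww {H K : Type} [Group H] [Group K] (f : H →* K) (a b t : H) (k : ℕ) :
    f (Ww a b t k) = Ww (f a) (f b) (f t) k := by
  simp only [Ww, map_mul, map_Wp, map_cw]

/-- the free group on three letters -/
abbrev F3 := FreeGroup (Fin 3)

def fa : F3 := FreeGroup.of 0
def fb : F3 := FreeGroup.of 1
def ft : F3 := FreeGroup.of 2

/-- positions -/
def P (x : Idx) : F3 := Wp fa fb ft x.1 x.2 * cw fa fb (Nat.pair x.1 x.2)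

def zeta : FreeGroup Idx →* F3 := FreeGroup.lift P

/-- shift action on the free group on the integers -/
def shiftHom : Multiplicative ℤ →* MulAut (FreeGroup ℤ) :=
  zpowersHom (MulAut (FreeGroup ℤ)) (FreeGroup.freeGroupCongr (Equiv.addRight (1 : ℤ)))

theorem shift_pow (j : ℕ) (n : ℤ) :
    shiftHom (Multiplicative.ofAdd (j : ℤ)) (FreeGroup.of n) = FreeGroup.of (n + j) := by
  induction j with
  | zero => simp
  | succ j ih =>
    have e : Multiplicative.ofAdd ((j + 1 : ℕ) : ℤ) =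
        Multiplicative.ofAdd (1 : ℤ) * Multiplicative.ofAdd (j : ℤ) := by
      rw [← ofAdd_add]; congr 1; push_cast; ring
    rw [e, map_mul, MulAut.mul_apply, ih]
    have h1 : shiftHom (Multiplicative.ofAdd (1 : ℤ)) =
        FreeGroup.freeGroupCongr (Equiv.addRight (1 : ℤ)) := by
      simp [shiftHom]
    rw [h1]
    simp [add_assoc]

abbrev SD := FreeGroup ℤ ⋊[shiftHom] Multiplicative ℤ

/-- kills the letter `t` -/
def Lam : F3 →* SD := FreeGroup.lift fun i =>
  if i = 0 then SemidirectProduct.inr (Multiplicative.ofAdd 1)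
  else if i = 1 then SemidirectProduct.inl (FreeGroup.of 0) else 1

theorem Lam_a : Lam fa = SemidirectProduct.inr (Multiplicative.ofAdd 1) := by simp [Lam, fa]
theorem Lam_b : Lam fb = SemidirectProduct.inl (FreeGroup.of 0) := by simp [Lam, fb]
theorem Lam_t : Lam ft = 1 := by simp [Lam, ft]

theorem Lam_cw (j : ℕ) : Lam (cw fa fb j) = SemidirectProduct.inl (FreeGroup.of (j : ℤ)) := by
  rw [map_cw, Lam_a, Lam_b, cw, ← map_pow]
  have e : (Multiplicative.ofAdd (1 : ℤ)) ^ j = Multiplicative.ofAdd (j : ℤ) := by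
    rw [← ofAdd_nsmul]; simp
  rw [e, ← map_inv, ← SemidirectProduct.inl_aut, shift_pow, zero_add]

theorem Lam_Wp (k n : ℕ) : Lam (Wp fa fb ft k n) = 1 := by
  induction n with
  | zero => simp [Wp]
  | succ n ih => rw [Wp, map_mul, ih, map_mul, map_mul, Lam_t, map_inv]; simp

theorem Lam_P (x : Idx) :
    Lam (P x) = SemidirectProduct.inl (FreeGroup.of ((Nat.pair x.1 x.2 : ℕ) : ℤ)) := by
  rw [P, map_mul, Lam_Wp, one_mul, Lam_cw]

theorem Lam_Ww (k : ℕ) : Lam (Ww fa fb ft k) =
    SemidirectProduct.inl (FreeGroup.of ((Nat.pair k (k + 3) : ℕ) : ℤ)) := by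
  rw [Ww, map_mul, Lam_Wp, one_mul, Lam_cw]

theorem pair_injective : Function.Injective fun x : Idx => ((Nat.pair x.1 x.2 : ℕ) : ℤ) := by
  rintro ⟨l, j⟩ ⟨l', j'⟩ h
  simp only [Nat.cast_inj, Nat.pair_eq_pair] at h
  obtain ⟨rfl, h2⟩ := h
  have : j = j' := Fin.ext h2
  rw [this]

theorem zeta_injective : Function.Injective zeta := by
  have h : (Lam.comp zeta) = SemidirectProduct.inl.comp
      (FreeGroup.map fun x : Idx => ((Nat.pair x.1 x.2 : ℕ) : ℤ)) := by
    refine FreeGroup.ext_hom _ _ fun x => ?_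
    simp [zeta, Lam_P]
  have h2 : Function.Injective (Lam.comp zeta) := by
    rw [h]
    exact SemidirectProduct.inl_injective.comp (FreeGroup.map_injective pair_injective)
  exact Function.Injective.of_comp h2

theorem cw_free : Function.Injective (FreeGroup.lift (cw fa fb)) := by
  have h : (Lam.comp (FreeGroup.lift (cw fa fb))) = SemidirectProduct.inl.comp
      (FreeGroup.map fun j : ℕ => (j : ℤ)) := by
    refine FreeGroup.ext_hom _ _ fun x => ?_
    simp [Lam_cw]
  have h2 : Function.Injective (Lam.comp (FreeGroup.lift (cw fa fb))) := by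
    rw [h]
    exact SemidirectProduct.inl_injective.comp (FreeGroup.map_injective Nat.cast_injective)
  exact Function.Injective.of_comp h2

theorem Ww_free : Function.Injective (FreeGroup.lift (Ww fa fb ft)) := by
  have h : (Lam.comp (FreeGroup.lift (Ww fa fb ft))) = SemidirectProduct.inl.comp
      (FreeGroup.map fun k : ℕ => ((Nat.pair k (k + 3) : ℕ) : ℤ)) := by
    refine FreeGroup.ext_hom _ _ fun x => ?_
    simp [Lam_Ww]
  have h2 : Function.Injective (Lam.comp (FreeGroup.lift (Ww fa fb ft))) := by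
    rw [h]
    refine SemidirectProduct.inl_injective.comp (FreeGroup.map_injective ?_)
    intro k k' hk
    simp only [Nat.cast_inj, Nat.pair_eq_pair] at hk
    exact hk.1
  exact Function.Injective.of_comp h2

end Pool.Agent.SO
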