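import Mathlib

set_option autoImplicit false
open Set

namespace Pool.Agent.SO

/-- index set of letters `d_{l,j}`, `j < l + 3` -/
abbrev Idx := Σ l : ℕ, Fin (l + 3)

/-- coefficient of a (reversed) word -/
noncomputable def coef : List (Idx × Bool) → ℝ
  | [] => 0
  | (_, true) :: _ => 0
  | [(x, false)] => 1 / ((x.1 : ℝ) + 3)
  | (x, false) :: (y, true) :: L => if x.1 = y.1 then -(1 / ((x.1 : ℝ) + 2)) * coef L else 0
  | (_, false) :: (_, false) :: _ => 0

/-- type of the last letter of a word -/
def typ : List (Idx × Bool) → ℕ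
  | [] => 0
  | [x] => x.1.1
  | _ :: y :: L => typ (y :: L)

/-- fundamental solution with data `s` -/
noncomputable def BB (s : ℕ → ℝ) (w : FreeGroup Idx) : ℝ := coef w.toWord * s (typ w.toWord)

theorem toWord_inv_of_mul (x : Idx) (w : FreeGroup Idx) :
    ((FreeGroup.of x)⁻¹ * w).toWord = (w.toWord.head?.elim [(x, false)] fun hd =>
      if hd = (x, true) then w.toWord.tail else (x, false) :: w.toWord) := by
  rw [FreeGroup.toWord_mul, FreeGroup.toWord_inv, FreeGroup.toWord_of]
  have e : FreeGroup.invRev [(x, true)] = [(x, false)] := by simp [FreeGroup.invRev]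
  rw [e, List.singleton_append, FreeGroup.reduce.cons, FreeGroup.reduce_toWord]
  rcases hw : w.toWord with _ | ⟨hd, tl⟩
  · rfl
  · obtain ⟨y, b⟩ := hd
    simp only [List.head?_cons, Option.elim_some, List.tail_cons]
    by_cases h : x = y ∧ false = !b
    · rw [if_pos h, if_pos]
      obtain ⟨h1, h2⟩ := h
      cases b
      · simp at h2
      · rw [h1]
    · rw [if_neg h, if_neg]
      intro hcon
      apply h
      rw [Prod.mk.injEq] at hcon
      refine ⟨hcon.1.symm, ?_⟩
      rw [hcon.2]; rfl

theorem typ_cons_cons (a b : Idx × Bool) (L : List (Idx × Bool)) :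
    typ (a :: b :: L) = typ (b :: L) := rfl

theorem coef_nil : coef [] = 0 := rfl
theorem coef_true (x : Idx) (L : List (Idx × Bool)) : coef ((x, true) :: L) = 0 := by
  simp [coef]
theorem coef_single (x : Idx) : coef [(x, false)] = 1 / ((x.1 : ℝ) + 3) := by simp [coef]
theorem coef_ft (x y : Idx) (L : List (Idx × Bool)) : coef ((x, false) :: (y, true) :: L) =
    if x.1 = y.1 then -(1 / ((x.1 : ℝ) + 2)) * coef L else 0 := by simp [coef]
theorem coef_ff (x y : Idx) (L : List (Idx × Bool)) : coef ((x, false) :: (y, false) :: L) = 0 := by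
  simp [coef]

/-- the sum identity -/
theorem BB_sum (s : ℕ → ℝ) (w : FreeGroup Idx) (l : ℕ) :
    ∑ j : Fin (l + 3), BB s ((FreeGroup.of (⟨l, j⟩ : Idx))⁻¹ * w) = if w = 1 then s l else 0 := by
  unfold BB
  simp only [toWord_inv_of_mul]
  rcases hw : w.toWord with _ | ⟨hd, tl⟩
  · have h1 : w = 1 := by rwa [FreeGroup.toWord_eq_nil_iff] at hw
    rw [if_pos h1]
    simp only [List.head?_nil, Option.elim_none, coef_single, typ]
    rw [Finset.sum_const, Finset.card_univ, Fintype.card_fin, nsmul_eq_mul]
    have : (l : ℝ) + 3 ≠ 0 := by positivity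
    push_cast
    field_simp
  · have h1 : w ≠ 1 := by
      intro h
      rw [h, FreeGroup.toWord_one] at hw
      exact absurd hw (by simp)
    rw [if_neg h1]
    simp only [List.head?_cons, Option.elim_some, List.tail_cons]
    obtain ⟨y, b⟩ := hd
    cases b
    · -- negative head: everything vanishes
      refine Finset.sum_eq_zero fun j _ => ?_
      rw [if_neg (by simp), coef_ff, zero_mul]
    · by_cases hly : y.1 = l
      · obtain ⟨l', j0⟩ := y
        simp only at hly
        subst hly
        rw [← Finset.add_sum_erase _ _ (Finset.mem_univ j0), if_pos rfl]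
        have e : ∀ j ∈ Finset.univ.erase j0,
            coef (if (((⟨l', j0⟩ : Idx), true) : Idx × Bool) = ((⟨l', j⟩ : Idx), true) then tl
              else ((⟨l', j⟩ : Idx), false) :: ((⟨l', j0⟩ : Idx), true) :: tl) *
            s (typ (if (((⟨l', j0⟩ : Idx), true) : Idx × Bool) = ((⟨l', j⟩ : Idx), true) then tl
              else ((⟨l', j⟩ : Idx), false) :: ((⟨l', j0⟩ : Idx), true) :: tl)) =
            -(1 / ((l' : ℝ) + 2)) * (coef tl * s (typ tl)) := by
          intro j hj
          have hne : j ≠ j0 := Finset.ne_of_mem_erase hj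
          have hne' : ¬ ((((⟨l', j0⟩ : Idx), true) : Idx × Bool) = ((⟨l', j⟩ : Idx), true)) := by
            intro hcon
            rw [Prod.mk.injEq] at hcon
            have := hcon.1
            simp at this
            exact hne this.symm
          rw [if_neg hne', coef_ft, if_pos rfl]
          rcases htl : tl with _ | ⟨b, tl'⟩
          · simp [coef_nil]
          · rw [typ_cons_cons, typ_cons_cons]; ring
        rw [Finset.sum_congr rfl e, Finset.sum_const, Finset.card_erase_of_mem (Finset.mem_univ _),
          Finset.card_univ, Fintype.card_fin, nsmul_eq_mul]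
        have h2 : ((l' + 3 - 1 : ℕ) : ℝ) = (l' : ℝ) + 2 := by
          have : l' + 3 - 1 = l' + 2 := by omega
          rw [this]; push_cast; ring
        rw [h2]
        have h3 : (l' : ℝ) + 2 ≠ 0 := by positivity
        field_simp
        ring
      · refine Finset.sum_eq_zero fun j _ => ?_
        rw [if_neg, coef_ft, if_neg, zero_mul]
        · intro h; exact hly h.symm
        · intro hcon
          rw [Prod.mk.injEq] at hcon
          apply hly
          rw [hcon.1]

theorem coef_le : ∀ (L : List (Idx × Bool)), |coef L| ≤ 1 ∧ |coef L| ^ 2 ≤ (1 / 2) ^ L.length ∧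
    ∀ x ∈ L, |coef L| ≤ 1 / ((x.1.1 : ℝ) + 1)
  | [] => by simp [coef]
  | (x, true) :: L => by
      rw [coef_true]
      simp only [abs_zero, zero_le_one, ne_eq, OfNat.ofNat_ne_zero, not_false_eq_true, zero_pow,
        true_and]
      exact ⟨by positivity, fun x _ => by positivity⟩
  | [(x, false)] => by
      rw [coef_single]
      have h0 : (0 : ℝ) ≤ x.1 := by positivity
      have h1 : |1 / ((x.1 : ℝ) + 3)| = 1 / ((x.1 : ℝ) + 3) := abs_of_pos (by positivity)
      rw [h1]
      have h2 : 1 / ((x.1 : ℝ) + 3) ≤ 1 / 3 := by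
        apply one_div_le_one_div_of_le <;> linarith
      have h3 : 0 ≤ 1 / ((x.1 : ℝ) + 3) := by positivity
      refine ⟨by linarith, ?_, ?_⟩
      · simp only [List.length_singleton, pow_one]
        nlinarith
      · intro y hy
        rw [List.mem_singleton] at hy
        rw [hy]
        apply one_div_le_one_div_of_le <;> linarith
  | (x, false) :: (y, true) :: L => by
      obtain ⟨i1, i2, i3⟩ := coef_le L
      rw [coef_ft]
      split_ifs with h
      · have h0 : (0 : ℝ) ≤ x.1 := by positivity
        rw [abs_mul, abs_neg, abs_of_pos (show (0 : ℝ) < 1 / ((x.1 : ℝ) + 2) by positivity)]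
        have h2 : 1 / ((x.1 : ℝ) + 2) ≤ 1 / 2 := by
          apply one_div_le_one_div_of_le <;> linarith
        have h3 : 0 ≤ 1 / ((x.1 : ℝ) + 2) := by positivity
        have h4 : 1 / ((x.1 : ℝ) + 2) ≤ 1 / ((x.1 : ℝ) + 1) := by
          apply one_div_le_one_div_of_le <;> linarith
        have h5 : 0 ≤ |coef L| := abs_nonneg _
        refine ⟨by nlinarith, ?_, ?_⟩
        · rw [mul_pow]
          simp only [List.length_cons, pow_succ]
          have : (1 / ((x.1 : ℝ) + 2)) ^ 2 ≤ 1 / 4 := by nlinarith
          calc (1 / ((x.1 : ℝ) + 2)) ^ 2 * |coef L| ^ 2 ≤ 1 / 4 * (1 / 2) ^ L.length := by gcongr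
            _ = _ := by ring
        · intro z hz
          rw [List.mem_cons, List.mem_cons] at hz
          rcases hz with rfl | rfl | hz
          · nlinarith
          · simp only
            rw [← h]; nlinarith
          · have := i3 z hz
            nlinarith
      · simp only [abs_zero, zero_le_one, ne_eq, OfNat.ofNat_ne_zero, not_false_eq_true, zero_pow,
          true_and]
        exact ⟨by positivity, fun x _ => by positivity⟩
  | (x, false) :: (y, false) :: L => by
      rw [coef_ff]
      simp only [abs_zero, zero_le_one, ne_eq, OfNat.ofNat_ne_zero, not_false_eq_true, zero_pow,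
        true_and]
      exact ⟨by positivity, fun x _ => by positivity⟩

theorem finite_lists {α : Type*} {s : Set α} (hs : s.Finite) (n : ℕ) :
    {L : List α | L.length ≤ n ∧ ∀ x ∈ L, x ∈ s}.Finite := by
  induction n with
  | zero =>
    refine (Set.finite_singleton ([] : List α)).subset ?_
    rintro L ⟨h, _⟩
    exact List.length_eq_zero_iff.mp (Nat.le_zero.mp h)
  | succ n ih =>
    refine ((Set.Finite.image2 (fun a L => a :: L) hs ih).union (Set.finite_singleton [])).subset ?_
    rintro L ⟨h, h'⟩
    rcases L with _ | ⟨a, L⟩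
    · right; rfl
    · left
      refine ⟨a, h' a (by simp), L, ⟨?_, fun x hx => h' x (by simp [hx])⟩, rfl⟩
      simpa using h

/-- the coefficients vanish at infinity -/
theorem coef_finite {ε : ℝ} (hε : 0 < ε) : {w : FreeGroup Idx | ε ≤ |coef w.toWord|}.Finite := by
  obtain ⟨N, hN⟩ := exists_pow_lt_of_lt_one (show (0 : ℝ) < ε ^ 2 by positivity)
    (show (1 / 2 : ℝ) < 1 by norm_num)
  obtain ⟨M, hM⟩ := exists_nat_gt (1 / ε)
  have hfin : {x : Idx × Bool | x.1.1 ≤ M}.Finite := by
    have h1 : (Set.univ : Set ((Σ l : Fin (M + 1), Fin (l + 3)) × Bool)).Finite := Set.finite_univ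
    refine (h1.image fun p => ((⟨p.1.1, p.1.2⟩ : Idx), p.2)).subset ?_
    rintro ⟨⟨l, j⟩, b⟩ hl
    exact ⟨(⟨⟨l, Nat.lt_succ_of_le hl⟩, j⟩, b), trivial, rfl⟩
  have := (finite_lists hfin N).preimage (f := FreeGroup.toWord) FreeGroup.toWord_injective.injOn
  refine this.subset ?_
  intro w hw
  have hw' : ε ≤ |coef w.toWord| := hw
  obtain ⟨_, h2, h3⟩ := coef_le w.toWord
  refine ⟨?_, fun x hx => ?_⟩
  · by_contra hcon
    push Not at hcon
    have h4 : ε ^ 2 ≤ (1 / 2 : ℝ) ^ w.toWord.length := (by gcongr : ε ^ 2 ≤ |coef w.toWord| ^ 2).trans h2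
    have h5 : (1 / 2 : ℝ) ^ w.toWord.length ≤ (1 / 2) ^ N :=
      pow_le_pow_of_le_one (by norm_num) (by norm_num) hcon.le
    linarith
  · have h4 := hw'.trans (h3 x hx)
    show x.1.1 ≤ M
    rw [le_div_iff₀ (by positivity)] at h4
    rw [div_lt_iff₀ hε] at hM
    have h5 : ε * ((x.1.1 : ℝ) + 1) < ε * M := by linarith
    have h6 := lt_of_mul_lt_mul_left h5 hε.le
    have h7 : (x.1.1 : ℝ) ≤ M := by linarith
    exact_mod_cast h7

end Pool.Agent.SO
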