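import Mathlib

/-! The definitions of the problem: finitary ballean of a group, slowly oscillating functions,
pseudobounded balleans, functions constant at infinity. -/

namespace Pool.Agent.SlowOsc

open Filter Topology

/-- The ball `E_F[x] = {x} ∪ F x` of the finitary ballean of the group `G`. -/
def ball {G : Type} [Group G] (F : Finset G) (x : G) : Set G :=
  {y | y = x ∨ ∃ f ∈ F, y = f * x}

/-- `φ` is slowly oscillating: for all `ε > 0` and finite `F ⊆ G` there is a finite `B ⊆ G` with
`diam φ(E_F[x]) < ε` for all `x ∈ G \ B`. -/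
def SlowlyOscillating {G : Type} [Group G] (φ : G → ℝ) : Prop :=
  ∀ ε : ℝ, 0 < ε → ∀ F : Finset G, ∃ B : Finset G, ∀ x : G, x ∉ B →
    Metric.diam (φ '' ball F x) < ε

/-- The finitary ballean of `G` is pseudobounded: for every slowly oscillating `φ` there is a
finite `B ⊆ G` such that `φ(G \ B)` is a bounded subset of the reals. -/
def Pseudobounded (G : Type) [Group G] : Prop :=
  ∀ φ : G → ℝ, SlowlyOscillating φ →
    ∃ B : Finset G, Bornology.IsBounded (φ '' {x : G | x ∉ B})

/-- `φ` is constant at infinity: there is a real `c` such that for every neighbourhood `U` of `c`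
the set of all `x` with `φ x ∉ U` is finite. -/
def ConstantAtInfinity {G : Type} (φ : G → ℝ) : Prop :=
  ∃ c : ℝ, ∀ U : Set ℝ, U ∈ 𝓝 c → {x : G | φ x ∉ U}.Finite

end Pool.Agent.SlowOsc
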