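import Pool.Agent.Lib.MP_b2dc7d_gt.Terms

set_option autoImplicit false
open Set Filter Topology

namespace Pool.Agent.SO

/-- a chosen model for every finite set of sequences -/
noncomputable def mdl (S : Finset Sym) : Mdl S := Classical.choice (mdl_exists S)

noncomputable def piS (S : Finset Sym) : FreeGroup T →* (mdl S).Γ := FreeGroup.lift (mdl S).π

noncomputable def UU : Ultrafilter (Finset Sym) := Ultrafilter.of atTop

theorem UU_le : (UU : Filter (Finset Sym)) ≤ atTop := Ultrafilter.of_le _

/-- words trivial in almost all models -/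
noncomputable def NN : Subgroup (FreeGroup T) where
  carrier := {w | ∀ᶠ S in (UU : Filter (Finset Sym)), piS S w = 1}
  one_mem' := Eventually.of_forall fun S => map_one _
  mul_mem' {a b} ha hb := by
    filter_upwards [ha, hb] with S h1 h2
    rw [map_mul, h1, h2, one_mul]
  inv_mem' {a} ha := by
    filter_upwards [ha] with S h1
    rw [map_inv, h1, inv_one]

theorem mem_NN (w : FreeGroup T) :
    w ∈ NN ↔ ∀ᶠ S in (UU : Filter (Finset Sym)), piS S w = 1 := Iff.rfl

instance : NN.Normal where
  conj_mem n hn g := by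
    rw [mem_NN] at hn ⊢
    filter_upwards [hn] with S h
    rw [map_mul, map_mul, h, mul_one, map_inv, mul_inv_cancel]

/-- the group -/
abbrev GG := FreeGroup T ⧸ NN

theorem eq_iff (v w : FreeGroup T) : ((v : GG) = (w : GG)) ↔
    ∀ᶠ S in (UU : Filter (Finset Sym)), piS S v = piS S w := by
  rw [QuotientGroup.eq, mem_NN]
  constructor <;> intro h <;> filter_upwards [h] with S hS
  · rw [map_mul, map_inv, inv_mul_eq_one] at hS
    exact hS
  · rw [map_mul, map_inv, inv_mul_eq_one]
    exact hS

theorem exists_val (w : FreeGroup T) : ∃ r : ℝ,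
    Tendsto (fun S => (mdl S).φ (piS S w)) (UU : Filter (Finset Sym)) (𝓝 r) := by
  have h1 : Tendsto (fun S => (mdl S).φ (piS S w)) (UU : Filter (Finset Sym))
      (𝓟 (Icc (0 : ℝ) 1)) := by
    rw [tendsto_principal]
    exact Eventually.of_forall fun S => (mdl S).h01 _
  have h2 : (UU.map (fun S => (mdl S).φ (piS S w)) : Filter ℝ) ≤ 𝓟 (Icc (0 : ℝ) 1) := h1
  obtain ⟨r, _, hr⟩ := isCompact_Icc.ultrafilter_le_nhds _ h2
  exact ⟨r, hr⟩

noncomputable def val (w : FreeGroup T) : ℝ := (exists_val w).choose

theorem val_spec (w : FreeGroup T) :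
    Tendsto (fun S => (mdl S).φ (piS S w)) (UU : Filter (Finset Sym)) (𝓝 (val w)) :=
  (exists_val w).choose_spec

theorem val_congr {v w : FreeGroup T} (h : (v : GG) = (w : GG)) : val v = val w := by
  refine tendsto_nhds_unique (val_spec v) ((val_spec w).congr' ?_)
  filter_upwards [(eq_iff v w).mp h] with S hS
  rw [hS]

/-- representatives -/
noncomputable def rep (y : GG) : FreeGroup T := Quotient.out y

theorem rep_mk (y : GG) : ((rep y : FreeGroup T) : GG) = y := QuotientGroup.out_eq' y

/-- the function on the group -/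
noncomputable def PHI (x : GG) : ℝ := val (rep x)

theorem PHI_mk (w : FreeGroup T) : PHI (w : GG) = val w :=
  val_congr (rep_mk _)

/-- uniform boundedness of the number of places where `φ` changes -/
def Bdd (w : FreeGroup T) : Prop := ∀ ε : ℝ, 0 < ε → ∃ M : ℕ, ∀ S : Finset Sym,
  (Dset (mdl S).φ (piS S w) ε).encard ≤ M

theorem Dset_one {H : Type} [Group H] (φ : H → ℝ) {x : H} (hx : x ∈ Inv φ) {ε : ℝ} (hε : 0 < ε) :
    Dset φ x ε = ∅ := by
  rw [eq_empty_iff_forall_notMem]
  intro y hy
  have hy' : ε ≤ |φ (y * x) - φ y| := hy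
  rw [hx y, sub_self, abs_zero] at hy'
  linarith

theorem Bdd.one : Bdd 1 := fun ε hε => ⟨0, fun S => by
  rw [map_one, Dset_one _ (one_mem _) hε]; simp⟩

theorem Bdd.mul {v w : FreeGroup T} (hv : Bdd v) (hw : Bdd w) : Bdd (v * w) := by
  intro ε hε
  obtain ⟨M1, h1⟩ := hv (ε / 2) (by positivity)
  obtain ⟨M2, h2⟩ := hw (ε / 2) (by positivity)
  refine ⟨M1 + M2, fun S => ?_⟩
  rw [map_mul]
  have hsub : Dset (mdl S).φ (piS S v * piS S w) ε ⊆ Dset (mdl S).φ (piS S v) (ε / 2) ∪
      (fun y => y * (piS S v)⁻¹) '' Dset (mdl S).φ (piS S w) (ε / 2) := by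
    intro y hy
    have hy' : ε ≤ |(mdl S).φ (y * (piS S v * piS S w)) - (mdl S).φ y| := hy
    by_cases hc : ε / 2 ≤ |(mdl S).φ (y * piS S v) - (mdl S).φ y|
    · exact Or.inl hc
    · right
      refine ⟨y * piS S v, ?_, by simp⟩
      show ε / 2 ≤ |(mdl S).φ (y * piS S v * piS S w) - (mdl S).φ (y * piS S v)|
      rw [mul_assoc]
      push Not at hc
      have := abs_sub_le ((mdl S).φ (y * (piS S v * piS S w))) ((mdl S).φ (y * piS S v))
        ((mdl S).φ y)
      linarith
  refine (encard_le_encard hsub).trans ((encard_union_le _ _).trans ?_)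
  push_cast
  exact add_le_add (h1 S) ((encard_image_le _ _).trans (h2 S))

theorem Bdd.inv {v : FreeGroup T} (hv : Bdd v) : Bdd v⁻¹ := by
  intro ε hε
  obtain ⟨M1, h1⟩ := hv ε hε
  refine ⟨M1, fun S => ?_⟩
  rw [map_inv]
  have hsub : Dset (mdl S).φ (piS S v)⁻¹ ε ⊆
      (fun y => y * (piS S v)) '' Dset (mdl S).φ (piS S v) ε := by
    intro y hy
    have hy' : ε ≤ |(mdl S).φ (y * (piS S v)⁻¹) - (mdl S).φ y| := hy
    refine ⟨y * (piS S v)⁻¹, ?_, by simp⟩
    show ε ≤ |(mdl S).φ (y * (piS S v)⁻¹ * piS S v) - (mdl S).φ (y * (piS S v)⁻¹)|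
    rw [inv_mul_cancel_right, abs_sub_comm]
    exact hy'
  exact (encard_le_encard hsub).trans ((encard_image_le _ _).trans (h1 S))

theorem Bdd.word {σ : Sym} (h : ∀ k j, Bdd (FreeGroup.of (σ.2.1 k j))) (k : ℕ) :
    Bdd (word σ k) := by
  unfold SO.word
  generalize List.range (σ.1 k) = L
  induction L with
  | nil => exact Bdd.one
  | cons j L ih =>
    rw [List.map_cons, List.prod_cons]
    refine Bdd.mul ?_ ih
    unfold lett
    split_ifs
    · exact h k j
    · exact (h k j).inv

theorem Bdd.gen (i : Fin 4) (σ : Sym) (h : ∀ k, Bdd (SO.word σ k)) :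
    Bdd (FreeGroup.of (T.mk i σ)) := by
  intro ε hε
  by_cases hi : i = 2
  · subst hi
    choose M hM using fun k => h k ε hε
    refine ⟨∑ w ∈ (coef_finite hε).toFinset, M (typ w.toWord), fun S => ?_⟩
    have e : piS S (FreeGroup.of (T.mk 2 σ)) = (mdl S).π (T.mk 2 σ) := by simp [piS]
    rw [e]
    by_cases hS : σ ∈ S
    · refine ((mdl S).hcard σ hS ε hε).trans ?_
      push_cast
      exact Finset.sum_le_sum fun w _ => hM _ S
    · rw [(mdl S).hout σ hS, Dset_one _ (one_mem _) hε]; simp
  · refine ⟨0, fun S => ?_⟩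
    have e : piS S (FreeGroup.of (T.mk i σ)) = (mdl S).π (T.mk i σ) := by simp [piS]
    rw [e, Dset_one _ ((mdl S).hinv σ i hi) hε]; simp

theorem Bdd.of : ∀ y : T, Bdd (FreeGroup.of y)
  | T.base => fun ε hε => ⟨1, fun S => by
      have e : piS S (FreeGroup.of T.base) = (mdl S).π T.base := by simp [piS]
      rw [e]; exact_mod_cast (mdl S).hbase ε hε⟩
  | T.gen i l s b => Bdd.gen i (l, s, b) (Bdd.word (fun k j => Bdd.of (s k j)))

theorem Bdd.all (w : FreeGroup T) : Bdd w := by
  refine FreeGroup.induction_on w Bdd.one (fun y => Bdd.of y) (fun y _ => (Bdd.of y).inv)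
    (fun x y hx hy => hx.mul hy)

/-- `PHI` is slowly oscillating. -/
theorem PHI_so (x : GG) {ε : ℝ} (hε : 0 < ε) : (Dset PHI x ε).Finite := by
  classical
  obtain ⟨w, rfl⟩ := QuotientGroup.mk_surjective x
  obtain ⟨M, hM⟩ := Bdd.all w (ε / 2) (by positivity)
  by_contra hinf
  obtain ⟨t, ht, htc⟩ := (Set.not_finite.mp hinf : (Dset PHI (w : GG) ε).Infinite).exists_subset_card_eq (M + 1)
  -- representatives
  have hev : ∀ᶠ S in (UU : Filter (Finset Sym)), (∀ y ∈ t, ε / 2 ≤
      |(mdl S).φ (piS S (rep y) * piS S w) - (mdl S).φ (piS S (rep y))|) ∧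
      ∀ y ∈ t, ∀ z ∈ t, y ≠ z → piS S (rep y) ≠ piS S (rep z) := by
    refine Filter.Eventually.and ?_ ?_
    · rw [Filter.eventually_all_finset]
      intro y hy
      have h1 : ε ≤ |PHI (y * (w : GG)) - PHI y| := ht hy
      have h2 : PHI y = val (rep y) := rfl
      have h3 : PHI (y * (w : GG)) = val (rep y * w) := by
        rw [← PHI_mk, QuotientGroup.mk_mul]
        congr 2
        exact (rep_mk y).symm
      rw [h2, h3] at h1
      have h4 : Tendsto (fun S => |(mdl S).φ (piS S (rep y * w)) -
          (mdl S).φ (piS S (rep y))|) (UU : Filter (Finset Sym))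
          (𝓝 |val (rep y * w) - val (rep y)|) :=
        ((val_spec _).sub (val_spec _)).abs
      filter_upwards [h4.eventually_const_le (by linarith : ε / 2 <
        |val (rep y * w) - val (rep y)|)] with S hS
      rwa [map_mul] at hS
    · rw [Filter.eventually_all_finset]
      intro y hy
      rw [Filter.eventually_all_finset]
      intro z hz
      by_cases hyz : y = z
      · exact Eventually.of_forall fun S h => absurd hyz h
      · have h1 : ¬ ((rep y : GG) = (rep z : GG)) := by
          intro h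
          apply hyz
          rw [← rep_mk y, ← rep_mk z]
          exact h
        rw [eq_iff] at h1
        have h2 := Ultrafilter.eventually_not.mpr h1
        filter_upwards [h2] with S hS _
        exact hS
  obtain ⟨S, hS1, hS2⟩ := hev.exists
  have hsub : ((t.image fun y => piS S (rep y) : Finset (mdl S).Γ) : Set (mdl S).Γ) ⊆
      Dset (mdl S).φ (piS S w) (ε / 2) := by
    intro y hy
    rw [Finset.coe_image] at hy
    obtain ⟨z, hz, rfl⟩ := hy
    exact hS1 z hz
  have hcard : (t.image fun y => piS S (rep y)).card = M + 1 := by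
    rw [Finset.card_image_of_injOn, htc]
    intro y hy z hz hyz
    by_contra hne
    exact hS2 y hy z hz hne hyz
  have h5 := (encard_le_encard hsub).trans (hM S)
  rw [Set.encard_coe_eq_coe_finsetCard, hcard] at h5
  have h6 : M + 1 ≤ M := by exact_mod_cast h5
  omega

/-- the relations hold in the group -/
theorem GG_rel (x : ℕ → GG) : ∃ a b t u : GG, ∀ k, x k * (u⁻¹ * cw a b k * u) = Ww a b t k := by
  classical
  -- the code of the sequence
  set L : ℕ → List (T × Bool) := fun k => (rep (x k) : FreeGroup T).toWord with hL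
  set σ : Sym := (fun k => (L k).length, fun k j => ((L k).getD j (T.base, true)).1,
    fun k j => ((L k).getD j (T.base, true)).2) with hσ
  have hword : ∀ k, word σ k = rep (x k) := by
    intro k
    have h1 : word σ k = FreeGroup.mk (L k) := by
      unfold word
      rw [hσ]
      simp only
      have h2 : ∀ l : List (T × Bool), ((List.range l.length).map fun j =>
          lett ((l.getD j (T.base, true)).2) ((l.getD j (T.base, true)).1)).prod =
          FreeGroup.mk l := by
        intro l
        induction l with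
        | nil => rfl
        | cons p l ih =>
          rw [List.length_cons, List.range_succ_eq_map, List.map_cons, List.prod_cons,
            List.map_map]
          have h3 : ((fun j => lett (((p :: l).getD j (T.base, true)).2)
              (((p :: l).getD j (T.base, true)).1)) ∘ Nat.succ) =
              fun j => lett ((l.getD j (T.base, true)).2) ((l.getD j (T.base, true)).1) := by
            funext j; simp
          rw [h3, ih]
          have h4 : FreeGroup.mk (p :: l) = FreeGroup.mk [p] * FreeGroup.mk l := by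
            rw [FreeGroup.mul_mk]; rfl
          rw [h4]
          congr 1
          obtain ⟨y, b⟩ := p
          simp only [List.getD_cons_zero, lett]
          cases b
          · simp [FreeGroup.of, FreeGroup.inv_mk, FreeGroup.invRev]
          · simp [FreeGroup.of]
      exact h2 (L k)
    rw [h1, hL, FreeGroup.mk_toWord]
  refine ⟨(FreeGroup.of (T.mk 0 σ) : FreeGroup T), (FreeGroup.of (T.mk 1 σ) : FreeGroup T),
    (FreeGroup.of (T.mk 2 σ) : FreeGroup T), (FreeGroup.of (T.mk 3 σ) : FreeGroup T), fun k => ?_⟩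
  have h1 : x k = ((rep (x k) : FreeGroup T) : GG) := (rep_mk _).symm
  rw [h1, ← hword k]
  have key : ((word σ k * ((FreeGroup.of (T.mk 3 σ))⁻¹ * cw (FreeGroup.of (T.mk 0 σ))
      (FreeGroup.of (T.mk 1 σ)) k * FreeGroup.of (T.mk 3 σ)) : FreeGroup T) : GG) =
      ((Ww (FreeGroup.of (T.mk 0 σ)) (FreeGroup.of (T.mk 1 σ)) (FreeGroup.of (T.mk 2 σ)) k :
        FreeGroup T) : GG) := by
    rw [eq_iff]
    have h2 : ∀ᶠ S in (UU : Filter (Finset Sym)), σ ∈ S := by
      refine UU_le ?_
      filter_upwards [eventually_ge_atTop ({σ} : Finset Sym)] with S hS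
      exact hS (Finset.mem_singleton_self _)
    filter_upwards [h2] with S hS
    have h3 := (mdl S).hrel σ hS k
    rw [map_mul, map_mul, map_mul, map_inv, map_cw, map_Ww]
    simpa [piS] using h3
  have e1 := map_cw (QuotientGroup.mk' NN) (FreeGroup.of (T.mk 0 σ)) (FreeGroup.of (T.mk 1 σ)) k
  have e2 := map_Ww (QuotientGroup.mk' NN) (FreeGroup.of (T.mk 0 σ)) (FreeGroup.of (T.mk 1 σ))
    (FreeGroup.of (T.mk 2 σ)) k
  simp only [QuotientGroup.mk'_apply] at e1 e2
  rw [← e1, ← e2, ← key]
  rfl

theorem PHI_zpow (n : ℤ) : PHI (((FreeGroup.of T.base : FreeGroup T) : GG) ^ n) =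
    if 1 ≤ n then 1 else 0 := by
  rw [← QuotientGroup.mk_zpow, PHI_mk]
  refine tendsto_nhds_unique (val_spec _) ?_
  refine tendsto_const_nhds.congr fun S => ?_
  have e : piS S (FreeGroup.of T.base ^ n) = (mdl S).π T.base ^ n := by simp [piS]
  rw [e]
  split_ifs with h
  · exact ((mdl S).hpos n h).symm
  · exact ((mdl S).hneg n (by omega)).symm

/-- the base generator has infinite order -/
theorem base_inj : Function.Injective fun n : ℤ => ((FreeGroup.of T.base : FreeGroup T) : GG) ^ n := by
  have key : ∀ n : ℤ, 1 ≤ n → ((FreeGroup.of T.base : FreeGroup T) : GG) ^ n ≠ 1 := by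
    intro n hn h
    have h1 := PHI_zpow n
    have h0 := PHI_zpow 0
    rw [h, if_pos hn] at h1
    rw [zpow_zero, h1] at h0
    norm_num at h0
  intro m n hmn
  simp only at hmn
  by_contra hne
  rcases lt_or_gt_of_ne hne with h | h
  · apply key (n - m) (by omega)
    rw [zpow_sub, hmn, mul_inv_cancel]
  · apply key (m - n) (by omega)
    rw [zpow_sub, hmn, mul_inv_cancel]

end Pool.Agent.SO
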