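import Pool.Agent.Lib.MP_b2dc7d_gt.Defs
import Pool.Agent.Lib.MP_b2dc7d_gt.Limit

namespace Pool.Agent.SlowOsc

open Pool.Agent.SO

open Filter Topology

/-- `M` bounds the oscillation of `ψ` along right multiplication by `x`. -/
def Bd (ψ : GG → ℝ) (x : GG) (M : ℝ) : Prop := ∀ y, |ψ (y * x) - ψ y| ≤ M

theorem Bd.mul {ψ : GG → ℝ} {x y : GG} {M N : ℝ} (hx : Bd ψ x M) (hy : Bd ψ y N) :
    Bd ψ (x * y) (M + N) := by
  intro g
  have h1 := hx g
  have h2 := hy (g * x)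
  rw [← mul_assoc]
  have h3 := abs_add_le (ψ (g * x * y) - ψ (g * x)) (ψ (g * x) - ψ g)
  have h4 : ψ (g * x * y) - ψ (g * x) + (ψ (g * x) - ψ g) = ψ (g * x * y) - ψ g := by ring
  rw [h4] at h3
  linarith

theorem Bd.inv {ψ : GG → ℝ} {x : GG} {M : ℝ} (hx : Bd ψ x M) : Bd ψ x⁻¹ M := by
  intro g
  have h1 := hx (g * x⁻¹)
  rw [inv_mul_cancel_right] at h1
  rw [abs_sub_comm]
  exact h1

theorem Bd.mono {ψ : GG → ℝ} {x : GG} {M N : ℝ} (hx : Bd ψ x M) (h : M ≤ N) : Bd ψ x N :=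
  fun g => (hx g).trans h

theorem Bd.one {ψ : GG → ℝ} : Bd ψ 1 0 := by
  intro g; simp

theorem Bd.pow {ψ : GG → ℝ} {x : GG} {M : ℝ} (hx : Bd ψ x M) (n : ℕ) : Bd ψ (x ^ n) (n * M) := by
  induction n with
  | zero => simpa using (Bd.one : Bd ψ 1 0)
  | succ n ih =>
    rw [pow_succ]
    refine (ih.mul hx).mono (le_of_eq ?_)
    push_cast; ring

theorem Bd.cw {ψ : GG → ℝ} {a b : GG} {M : ℝ} (ha : Bd ψ a M) (hb : Bd ψ b M) (j : ℕ) :
    Bd ψ (cw a b j) (((2 * j + 1 : ℕ) : ℝ) * M) := by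
  refine (((ha.pow j).mul hb).mul (ha.pow j).inv).mono (le_of_eq ?_)
  push_cast; ring

/-- a length bound for the words `Wp` -/
def lw (k : ℕ) : ℕ → ℕ
  | 0 => 0
  | n + 1 => lw k n + (4 * Nat.pair k n + 3)

theorem Bd.Wp {ψ : GG → ℝ} {a b t : GG} {M : ℝ} (ha : Bd ψ a M) (hb : Bd ψ b M)
    (ht : Bd ψ t M) (k n : ℕ) : Bd ψ (Wp a b t k n) (((lw k n : ℕ) : ℝ) * M) := by
  induction n with
  | zero =>
    have : SO.Wp a b t k 0 = 1 := rfl
    rw [this]
    simpa [lw] using (Bd.one : Bd ψ 1 0)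
  | succ n ih =>
    have : SO.Wp a b t k (n + 1) = SO.Wp a b t k n *
        (SO.cw a b (Nat.pair k n) * t * (SO.cw a b (Nat.pair k n))⁻¹) := rfl
    rw [this]
    refine (ih.mul (((ha.cw hb _).mul ht).mul (ha.cw hb _).inv)).mono (le_of_eq ?_)
    rw [lw]
    push_cast; ring

/-- a length bound for `x k` -/
def ll (k : ℕ) : ℕ := (lw k (k + 3) + (2 * Nat.pair k (k + 3) + 1)) + (2 * k + 3)

theorem bounded_of_so {ψ : GG → ℝ} (h : ∀ (x : GG) (ε : ℝ), 0 < ε → (Dset ψ x ε).Finite) :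
    ∃ C : ℝ, ∀ x, |ψ x - ψ 1| ≤ C := by
  have hfin : ∀ x, ∃ M : ℝ, Bd ψ x M := by
    intro x
    have h1 := (h x 1 one_pos).image (fun y => |ψ (y * x) - ψ y|)
    obtain ⟨M, hM⟩ := h1.bddAbove
    refine ⟨max M 1, fun y => ?_⟩
    by_cases hy : 1 ≤ |ψ (y * x) - ψ y|
    · exact (hM ⟨y, hy, rfl⟩).trans (le_max_left _ _)
    · exact (not_le.1 hy).le.trans (le_max_right _ _)
  by_contra hcon
  push Not at hcon
  choose x hx using fun k : ℕ => hcon ((k : ℝ) * ll k)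
  obtain ⟨a, b, t, u, hrel⟩ := GG_rel x
  obtain ⟨Ma, ha⟩ := hfin a
  obtain ⟨Mb, hb⟩ := hfin b
  obtain ⟨Mt, ht⟩ := hfin t
  obtain ⟨Mu, hu⟩ := hfin u
  set M : ℝ := max (max Ma Mb) (max Mt Mu) with hM
  have ha' : Bd ψ a M := ha.mono ((le_max_left _ _).trans (le_max_left _ _))
  have hb' : Bd ψ b M := hb.mono ((le_max_right _ _).trans (le_max_left _ _))
  have ht' : Bd ψ t M := ht.mono ((le_max_left _ _).trans (le_max_right _ _))
  have hu' : Bd ψ u M := hu.mono ((le_max_right _ _).trans (le_max_right _ _))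
  have hbound : ∀ k, Bd ψ (x k) ((ll k : ℝ) * M) := by
    intro k
    have h1 : x k = Ww a b t k * (u⁻¹ * cw a b k * u)⁻¹ := by
      rw [← hrel k, mul_inv_cancel_right]
    rw [h1]
    have h2 : Ww a b t k = Wp a b t k (k + 3) * cw a b (Nat.pair k (k + 3)) := rfl
    rw [h2]
    refine (((ha'.Wp hb' ht' k (k + 3)).mul (ha'.cw hb' _)).mul
      ((hu'.inv.mul (ha'.cw hb' k)).mul hu').inv).mono (le_of_eq ?_)
    rw [ll]
    push_cast; ring
  obtain ⟨k, hk⟩ := exists_nat_gt M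
  have h1 := hbound k 1
  rw [one_mul] at h1
  have h2 := hx k
  have h3 : (0 : ℝ) ≤ ll k := Nat.cast_nonneg _
  nlinarith

theorem dset_of_so {φ : GG → ℝ} (hφ : SlowlyOscillating φ) (x : GG) (ε : ℝ) (hε : 0 < ε) :
    (Dset (fun y => φ y⁻¹) x ε).Finite := by
  obtain ⟨B, hB⟩ := hφ ε hε {x⁻¹}
  refine ((B.finite_toSet).image (fun z => z⁻¹)).subset ?_
  intro y hy
  refine ⟨y⁻¹, ?_, inv_inv y⟩
  by_contra hyB
  have h1 := hB y⁻¹ hyB
  have hbd : Bornology.IsBounded (φ '' ball {x⁻¹} y⁻¹) := by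
    refine Set.Finite.isBounded ((Set.Finite.subset
      (Set.toFinite ({y⁻¹, x⁻¹ * y⁻¹} : Set GG)) ?_).image φ)
    intro z hz
    rcases hz with rfl | ⟨f, hf, rfl⟩
    · simp
    · rw [Finset.mem_singleton] at hf
      subst hf
      simp
  have h2 : dist (φ (x⁻¹ * y⁻¹)) (φ y⁻¹) ≤ Metric.diam (φ '' ball {x⁻¹} y⁻¹) := by
    refine Metric.dist_le_diam_of_mem hbd ⟨_, Or.inr ⟨x⁻¹, by simp, rfl⟩, rfl⟩
      ⟨_, Or.inl rfl, rfl⟩
  rw [Real.dist_eq] at h2
  have h3 : ε ≤ |φ (y * x)⁻¹ - φ y⁻¹| := hy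
  rw [mul_inv_rev] at h3
  linarith

theorem so_of_dset {ψ : GG → ℝ} (hψ : ∀ (x : GG) (ε : ℝ), 0 < ε → (Dset ψ x ε).Finite) :
    SlowlyOscillating (fun y => ψ y⁻¹) := by
  classical
  intro ε hε F
  have hfin : ∀ f : GG, (Dset ψ f⁻¹ (ε / 3)).Finite := fun f => hψ _ _ (by linarith)
  refine ⟨F.biUnion fun f => (hfin f).toFinset.image (fun z => z⁻¹), fun x hx => ?_⟩
  have hclose : ∀ f ∈ F, |ψ (f * x)⁻¹ - ψ x⁻¹| ≤ ε / 3 := by
    intro f hf
    by_contra hcon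
    push Not at hcon
    apply hx
    rw [Finset.mem_biUnion]
    refine ⟨f, hf, ?_⟩
    rw [Finset.mem_image]
    refine ⟨x⁻¹, ?_, inv_inv x⟩
    rw [Set.Finite.mem_toFinset]
    show ε / 3 ≤ |ψ (x⁻¹ * f⁻¹) - ψ x⁻¹|
    rw [← mul_inv_rev]
    exact hcon.le
  have hclose' : ∀ z ∈ ball F x, |ψ z⁻¹ - ψ x⁻¹| ≤ ε / 3 := by
    intro z hz
    rcases hz with rfl | ⟨f, hf, rfl⟩
    · rw [sub_self, abs_zero]; linarith
    · exact hclose f hf
  have h1 : Metric.diam ((fun y => ψ y⁻¹) '' ball F x) ≤ 2 * ε / 3 := by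
    refine Metric.diam_le_of_forall_dist_le (by linarith) ?_
    rintro _ ⟨z, hz, rfl⟩ _ ⟨w, hw, rfl⟩
    have h2 := hclose' z hz
    have h3 := hclose' w hw
    rw [Real.dist_eq]
    rw [abs_le] at h2 h3 ⊢
    constructor <;> simp only <;> linarith [h2.1, h2.2, h3.1, h3.2]
  linarith

/-- **Negative answer.**  There are a group `G` whose finitary ballean is pseudobounded and a slowly
oscillating function `φ : G → ℝ` that is not constant at infinity. -/
theorem main : ∃ (G : Type) (_ : Group G), Pseudobounded G ∧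
    ∃ φ : G → ℝ, SlowlyOscillating φ ∧ ¬ ConstantAtInfinity φ := by
  refine ⟨GG, inferInstance, ?_, fun y => PHI y⁻¹, ?_, ?_⟩
  · intro φ hφ
    refine ⟨∅, ?_⟩
    obtain ⟨C, hC⟩ := bounded_of_so (ψ := fun y => φ y⁻¹) (dset_of_so hφ)
    rw [isBounded_iff_forall_norm_le]
    refine ⟨C + |φ 1|, ?_⟩
    rintro _ ⟨y, -, rfl⟩
    have h1 := hC y⁻¹
    rw [inv_inv, inv_one] at h1
    rw [Real.norm_eq_abs]
    have h2 := abs_add_le (φ y - φ 1) (φ 1)
    rw [sub_add_cancel] at h2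
    linarith
  · exact so_of_dset fun x ε hε => PHI_so x hε
  · rintro ⟨c, hc⟩
    have h1 := hc (Metric.ball c (1 / 2)) (Metric.ball_mem_nhds c (by norm_num))
    set g : ℤ → GG := fun n => ((FreeGroup.of T.base : FreeGroup T) : GG) ^ n with hg
    have hginj : Function.Injective g := base_inj
    by_cases h01 : (1 : ℝ) ∈ Metric.ball c (1 / 2)
    · -- then `0` is not in the ball
      have h0 : (0 : ℝ) ∉ Metric.ball c (1 / 2) := by
        intro h0
        rw [Metric.mem_ball] at h0 h01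
        have h3 := dist_triangle_right (0 : ℝ) 1 c
        have h4 : dist (0 : ℝ) 1 = 1 := by rw [Real.dist_eq]; norm_num
        rw [h4] at h3
        linarith
      have h2 : Set.range (fun n : ℕ => (g (-(n : ℤ)))⁻¹) ⊆
          {x : GG | PHI x⁻¹ ∉ Metric.ball c (1 / 2)} := by
        rintro _ ⟨n, rfl⟩
        show PHI ((g (-(n : ℤ)))⁻¹)⁻¹ ∉ _
        rw [inv_inv, hg]
        simp only
        rw [PHI_zpow, if_neg (by omega)]
        exact h0
      refine Set.infinite_range_of_injective ?_ (h1.subset h2)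
      intro m n hmn
      have := hginj (inv_injective hmn)
      omega
    · have h2 : Set.range (fun n : ℕ => (g ((n : ℤ) + 1))⁻¹) ⊆
          {x : GG | PHI x⁻¹ ∉ Metric.ball c (1 / 2)} := by
        rintro _ ⟨n, rfl⟩
        show PHI ((g ((n : ℤ) + 1))⁻¹)⁻¹ ∉ _
        rw [inv_inv, hg]
        simp only
        rw [PHI_zpow, if_pos (by omega)]
        exact h01
      refine Set.infinite_range_of_injective ?_ (h1.subset h2)
      intro m n hmn
      have := hginj (inv_injective hmn)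
      omega

end Pool.Agent.SlowOsc
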