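import Pool.Agent.Lib.MP_b2dc7d_gt.Aff

set_option autoImplicit false
open Set

namespace Pool.Agent.SO

/-- places where right multiplication by `x` changes `φ` by at least `ε` -/
def Dset {H : Type} [Group H] (φ : H → ℝ) (x : H) (ε : ℝ) : Set H := {y | ε ≤ |φ (y * x) - φ y|}

/-- right stabiliser of a function -/
def Inv {H : Type} [Group H] (φ : H → ℝ) : Subgroup H where
  carrier := {x | ∀ y, φ (y * x) = φ y}
  one_mem' y := by rw [mul_one]
  mul_mem' {a b} ha hb y := by rw [← mul_assoc, hb, ha]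
  inv_mem' {a} ha y := by
    have := ha (y * a⁻¹)
    rw [inv_mul_cancel_right] at this
    exact this.symm

/-- `ψ` extends `φ` along `ι`, without further changes outside the range of `ι` -/
def Ext {G H : Type} [Group G] [Group H] (ι : G →* H) (φ : G → ℝ) (ψ : H → ℝ) : Prop :=
  (∀ g, ψ (ι g) = φ g) ∧ ∀ x y, y ∉ range ι → ψ (y * ι x) = ψ y

theorem Ext.comp {G H K : Type} [Group G] [Group H] [Group K] {ι : G →* H} {κ : H →* K}
    {φ : G → ℝ} {ψ : H → ℝ} {χ : K → ℝ} (h : Ext ι φ ψ) (h' : Ext κ ψ χ) :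
    Ext (κ.comp ι) φ χ := by
  refine ⟨fun g => by rw [MonoidHom.comp_apply, h'.1, h.1], fun x y hy => ?_⟩
  by_cases hk : y ∈ range κ
  · obtain ⟨k, rfl⟩ := hk
    have hk' : k ∉ range ι := by
      rintro ⟨g, rfl⟩; exact hy ⟨g, rfl⟩
    rw [MonoidHom.comp_apply, ← map_mul, h'.1, h'.1, h.2 x k hk']
  · exact h'.2 _ _ hk

theorem Ext.encard {G H : Type} [Group G] [Group H] {ι : G →* H} {φ : G → ℝ} {ψ : H → ℝ}
    (h : Ext ι φ ψ) (hι : Function.Injective ι) (x : G) {ε : ℝ} (hε : 0 < ε) :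
    (Dset ψ (ι x) ε).encard = (Dset φ x ε).encard := by
  have : Dset ψ (ι x) ε = ι '' Dset φ x ε := by
    ext y
    constructor
    · intro hy
      have hy' : ε ≤ |ψ (y * ι x) - ψ y| := hy
      by_cases hr : y ∈ range ι
      · obtain ⟨g, rfl⟩ := hr
        rw [← map_mul, h.1, h.1] at hy'
        exact ⟨g, hy', rfl⟩
      · rw [h.2 x y hr, sub_self, abs_zero] at hy'
        linarith
    · rintro ⟨g, hg, rfl⟩
      show ε ≤ |ψ (ι g * ι x) - ψ (ι g)|
      rw [← map_mul, h.1, h.1]; exact hg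
  rw [this, hι.encard_image]

/-- clamping to the unit interval -/
noncomputable def clamp (r : ℝ) : ℝ := max 0 (min 1 r)

theorem clamp_mem (r : ℝ) : clamp r ∈ Icc (0 : ℝ) 1 :=
  ⟨le_max_left _ _, max_le zero_le_one (min_le_left _ _)⟩

theorem clamp_eq {r : ℝ} (h : r ∈ Icc (0 : ℝ) 1) : clamp r = r := by
  rw [clamp, min_eq_right h.2, max_eq_right h.1]

theorem clamp_sub (r s : ℝ) : |clamp r - clamp s| ≤ |r - s| := by
  unfold clamp
  have h1 := abs_max_sub_max_le_max (0 : ℝ) (min 1 r) 0 (min 1 s)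
  have h2 := abs_min_sub_min_le_max (1 : ℝ) r 1 s
  rw [sub_self, abs_zero, max_eq_right (abs_nonneg (min 1 r - min 1 s))] at h1
  rw [sub_self, abs_zero, max_eq_right (abs_nonneg (r - s))] at h2
  exact h1.trans h2

variable {G : Type} [Group G] (φ : G → ℝ) (x : ℕ → G)

abbrev KK (G : Type) [Group G] := Monoid.Coprod G F3

/-- root increments -/
noncomputable def dl (g : G) (k : ℕ) : ℝ := φ (g * x k) - φ g

open Classical in
noncomputable def cG (g : G) (y : KK G) : ℝ :=
  if y = Monoid.Coprod.inl (Monoid.Coprod.fst y) then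
    φ (Monoid.Coprod.fst y * g) - φ (Monoid.Coprod.fst y) else 0

theorem cG_inl (g a : G) : cG φ g (Monoid.Coprod.inl a) = φ (a * g) - φ a := by
  unfold cG
  rw [if_pos (by simp)]
  simp

open Classical in
noncomputable def bet (y : KK G) : ℝ :=
  if h : ∃ z : FreeGroup Idx, y = Monoid.Coprod.inl (Monoid.Coprod.fst y) *
      Monoid.Coprod.inr (zeta z) then BB (dl φ x (Monoid.Coprod.fst y)) (h.choose)⁻¹ else 0

theorem bet_eq (g : G) (z : FreeGroup Idx) :
    bet φ x (Monoid.Coprod.inl g * Monoid.Coprod.inr (zeta z)) = BB (dl φ x g) z⁻¹ := by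
  have h : ∃ z' : FreeGroup Idx, (Monoid.Coprod.inl g * Monoid.Coprod.inr (zeta z) : KK G) =
      Monoid.Coprod.inl (Monoid.Coprod.fst (Monoid.Coprod.inl g *
      Monoid.Coprod.inr (zeta z) : KK G)) * Monoid.Coprod.inr (zeta z') := ⟨z, by simp⟩
  unfold bet
  rw [dif_pos h]
  have h2 := h.choose_spec
  have h3 : h.choose = z := by
    apply zeta_injective
    have := congrArg Monoid.Coprod.snd h2
    simpa using this.symm
  rw [h3]
  congr 2
  simp

theorem bet_zero {y : KK G} (h : ¬ ∃ (g : G) (z : FreeGroup Idx), y = Monoid.Coprod.inl g *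
    Monoid.Coprod.inr (zeta z)) : bet φ x y = 0 := by
  unfold bet
  rw [dif_neg]
  rintro ⟨z, hz⟩
  exact h ⟨_, z, hz⟩

/-- the homomorphism on the first factor -/
noncomputable def thG : G →* Aff (KK G) where
  toFun g := ⟨Monoid.Coprod.inl g, cG φ g⟩
  map_one' := by
    ext
    · simp [Aff.one_g]
    · simp [cG, Aff.one_f]
  map_mul' g g' := by
    ext
    · simp [Aff.mul_g]
    · rename_i y
      rw [Aff.mul_f]
      simp only
      by_cases hy : y = Monoid.Coprod.inl (Monoid.Coprod.fst y)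
      · rw [hy, ← map_mul, cG_inl, cG_inl, cG_inl, mul_assoc]; ring
      · have hy' : ¬ (y * Monoid.Coprod.inl g = Monoid.Coprod.inl
            (Monoid.Coprod.fst (y * Monoid.Coprod.inl g : KK G))) := by
          intro hcon
          apply hy
          rw [map_mul, Monoid.Coprod.fst_apply_inl, map_mul] at hcon
          exact mul_right_cancel hcon
        unfold cG
        rw [if_neg hy, if_neg hy, if_neg hy', add_zero]

noncomputable def thF : F3 →* Aff (KK G) := FreeGroup.lift fun i =>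
  if i = 2 then ⟨Monoid.Coprod.inr ft, bet φ x⟩ else ⟨Monoid.Coprod.inr (FreeGroup.of i), fun _ => 0⟩

noncomputable def Th : KK G →* Aff (KK G) := Monoid.Coprod.lift (thG φ) (thF φ x)

theorem Th_g (y : KK G) : (Th φ x y).g = y := by
  have h : (Aff.fst.comp (Th φ x)) = MonoidHom.id (KK G) := by
    refine Monoid.Coprod.hom_ext ?_ ?_
    · ext g
      rfl
    · refine FreeGroup.ext_hom _ _ fun i => ?_
      show ((Th φ x) (Monoid.Coprod.inr (FreeGroup.of i))).g = Monoid.Coprod.inr (FreeGroup.of i)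
      rw [Th, Monoid.Coprod.lift_apply_inr, thF, FreeGroup.lift_apply_of]
      split_ifs with h
      · rw [h]; rfl
      · rfl
  exact DFunLike.congr_fun h y

/-- The extension to the free product. -/
theorem free_step : ∃ ψ : KK G → ℝ,
    Ext Monoid.Coprod.inl φ ψ ∧ Monoid.Coprod.inr fa ∈ Inv ψ ∧ Monoid.Coprod.inr fb ∈ Inv ψ ∧
    (∀ k, (Monoid.Coprod.inl (x k))⁻¹ * Monoid.Coprod.inr (Ww fa fb ft k) ∈ Inv ψ) ∧
    ∀ y, ψ (y * Monoid.Coprod.inr ft) - ψ y = bet φ x y := by
  obtain ⟨ψ, hψ1, hψ⟩ := integrate (Th φ x) (Th_g φ x) (φ 1)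
  have hl : ∀ (g : G) (y : KK G), ψ (y * Monoid.Coprod.inl g) - ψ y = cG φ g y := by
    intro g y
    rw [hψ, Th, Monoid.Coprod.lift_apply_inl]; rfl
  have hr : ∀ (i : Fin 3) (y : KK G), ψ (y * Monoid.Coprod.inr (FreeGroup.of i)) - ψ y =
      if i = 2 then bet φ x y else 0 := by
    intro i y
    rw [hψ, Th, Monoid.Coprod.lift_apply_inr, thF, FreeGroup.lift_apply_of]
    split_ifs <;> rfl
  have hone : ∀ g, ψ (Monoid.Coprod.inl g) = φ g := by
    intro g
    have := hl g 1
    rw [one_mul, hψ1, show (1 : KK G) = Monoid.Coprod.inl 1 from (map_one _).symm, cG_inl,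
      one_mul] at this
    linarith
  have hrange : ∀ y : KK G, y ∉ range (Monoid.Coprod.inl : G →* KK G) → ∀ g, cG φ g y = 0 := by
    intro y hy g
    unfold cG
    rw [if_neg]
    intro hcon
    exact hy ⟨_, hcon.symm⟩
  have ha : Monoid.Coprod.inr fa ∈ Inv ψ := fun y => by
    have := hr 0 y
    rw [if_neg (by decide)] at this
    show ψ (y * Monoid.Coprod.inr (FreeGroup.of 0)) = ψ y
    linarith
  have hb : Monoid.Coprod.inr fb ∈ Inv ψ := fun y => by
    have := hr 1 y
    rw [if_neg (by decide)] at this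
    show ψ (y * Monoid.Coprod.inr (FreeGroup.of 1)) = ψ y
    linarith
  have ht : ∀ y, ψ (y * Monoid.Coprod.inr ft) - ψ y = bet φ x y := fun y => by
    have := hr 2 y
    rw [if_pos rfl] at this
    exact this
  have hc : ∀ j, Monoid.Coprod.inr (cw fa fb j) ∈ Inv ψ := by
    intro j
    rw [map_cw, cw]
    exact mul_mem (mul_mem (pow_mem ha _) hb) (inv_mem (pow_mem ha _))
  have hp : ∀ (k n : ℕ) (y : KK G), ψ (y * Monoid.Coprod.inr (Wp fa fb ft k n)) - ψ y =
      ∑ j ∈ Finset.range n, bet φ x (y * Monoid.Coprod.inr (Wp fa fb ft k j *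
        cw fa fb (Nat.pair k j))) := by
    intro k n y
    induction n with
    | zero => simp [Wp]
    | succ n ih =>
      rw [Finset.sum_range_succ, ← ih]
      have e1 : y * Monoid.Coprod.inr (Wp fa fb ft k (n + 1)) =
          (y * Monoid.Coprod.inr (Wp fa fb ft k n * cw fa fb (Nat.pair k n)) *
            Monoid.Coprod.inr ft) * (Monoid.Coprod.inr (cw fa fb (Nat.pair k n)))⁻¹ := by
        rw [Wp]; simp only [map_mul, map_inv, mul_assoc]
      rw [e1, (inv_mem (hc (Nat.pair k n)) : _) _]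
      have e2 := ht (y * Monoid.Coprod.inr (Wp fa fb ft k n * cw fa fb (Nat.pair k n)))
      have e3 : ψ (y * Monoid.Coprod.inr (Wp fa fb ft k n * cw fa fb (Nat.pair k n))) =
          ψ (y * Monoid.Coprod.inr (Wp fa fb ft k n)) := by
        rw [map_mul, ← mul_assoc, (hc _ : _) _]
      rw [← e2, e3]
      ring
  have hw : ∀ (k : ℕ) (y : KK G), ψ (y * Monoid.Coprod.inr (Ww fa fb ft k)) - ψ y =
      cG φ (x k) y := by
    intro k y
    have e1 : y * Monoid.Coprod.inr (Ww fa fb ft k) = y * Monoid.Coprod.inr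
        (Wp fa fb ft k (k + 3)) * Monoid.Coprod.inr (cw fa fb (Nat.pair k (k + 3))) := by
      rw [Ww, map_mul, mul_assoc]
    rw [e1, (hc _ : _) _, hp, Finset.sum_range]
    have e2 : ∀ j : Fin (k + 3), Wp fa fb ft k j * cw fa fb (Nat.pair k j) = P ⟨k, j⟩ :=
      fun j => rfl
    simp only [e2]
    by_cases hy : ∃ (g : G) (z : FreeGroup Idx), y = Monoid.Coprod.inl g *
        Monoid.Coprod.inr (zeta z)
    · obtain ⟨g, z, rfl⟩ := hy
      have e3 : ∀ j : Fin (k + 3), bet φ x (Monoid.Coprod.inl g * Monoid.Coprod.inr (zeta z) *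
          Monoid.Coprod.inr (P ⟨k, j⟩)) = BB (dl φ x g) ((FreeGroup.of (⟨k, j⟩ : Idx))⁻¹ * z⁻¹) := by
        intro j
        have : P ⟨k, j⟩ = zeta (FreeGroup.of ⟨k, j⟩) := by simp [zeta]
        rw [this, mul_assoc, ← map_mul, ← map_mul, bet_eq, mul_inv_rev]
      simp only [e3]
      rw [BB_sum]
      by_cases hz : z⁻¹ = 1
      · rw [if_pos hz]
        have hz' : z = 1 := by rwa [inv_eq_one] at hz
        rw [hz', map_one, map_one, mul_one, cG_inl]
        rfl
      · rw [if_neg hz, hrange]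
        rintro ⟨a, ha'⟩
        apply hz
        have h1 := congrArg Monoid.Coprod.snd ha'
        simp only [Monoid.Coprod.snd_apply_inl, map_mul, Monoid.Coprod.snd_apply_inr, one_mul] at h1
        have h2 : zeta z = zeta 1 := by rw [← h1, map_one]
        rw [zeta_injective h2, inv_one]
    · rw [hrange]
      · refine Finset.sum_eq_zero fun j _ => ?_
        refine bet_zero φ x ?_
        rintro ⟨g, z, hgz⟩
        apply hy
        refine ⟨g, z * (FreeGroup.of ⟨k, j⟩)⁻¹, ?_⟩
        have : P ⟨k, j⟩ = zeta (FreeGroup.of ⟨k, j⟩) := by simp [zeta]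
        rw [this] at hgz
        rw [map_mul, map_mul, map_inv, map_inv, ← mul_assoc, ← hgz, mul_inv_cancel_right]
      · rintro ⟨a, rfl⟩
        exact hy ⟨a, 1, by simp⟩
  refine ⟨ψ, ⟨hone, fun g y hy => ?_⟩, ha, hb, fun k y => ?_, ht⟩
  · have := hl g y
    rw [hrange y hy] at this
    linarith
  · have h1 := hw k (y * (Monoid.Coprod.inl (x k))⁻¹)
    have h2 := hl (x k) (y * (Monoid.Coprod.inl (x k))⁻¹)
    rw [inv_mul_cancel_right] at h2
    rw [← mul_assoc]
    linarith

end Pool.Agent.SO
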