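import Pool.Agent.Lib.MP_b2dc7d_gt.FreeStep

set_option autoImplicit false
open Set

namespace Pool.Agent.SO

section hnn

variable {K : Type} [Group K] {A B : Subgroup K} (θ : A ≃* B) (φ : K → ℝ)

open Classical in
noncomputable def cK (x : K) (y : HNNExtension K A B θ) : ℝ :=
  if h : ∃ k : K, HNNExtension.of k = y then φ (h.choose * x) - φ h.choose else 0

theorem cK_of (x k : K) : cK θ φ x (HNNExtension.of k) = φ (k * x) - φ k := by
  have h : ∃ k' : K, (HNNExtension.of k' : HNNExtension K A B θ) = HNNExtension.of k := ⟨k, rfl⟩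
  unfold cK
  rw [dif_pos h]
  have h2 : h.choose = k := HNNExtension.of_injective θ h.choose_spec
  rw [h2]

theorem cK_zero (x : K) {y : HNNExtension K A B θ}
    (h : y ∉ range (HNNExtension.of : K →* HNNExtension K A B θ)) : cK θ φ x y = 0 := by
  unfold cK
  exact dif_neg h

noncomputable def thK : K →* Aff (HNNExtension K A B θ) where
  toFun x := ⟨HNNExtension.of x, cK θ φ x⟩
  map_one' := by
    ext y
    · simp [Aff.one_g]
    · rw [Aff.one_f]
      by_cases hy : y ∈ range (HNNExtension.of : K →* HNNExtension K A B θ)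
      · obtain ⟨k, rfl⟩ := hy
        simp only [cK_of, mul_one, sub_self]
      · exact cK_zero θ φ 1 hy
  map_mul' x x' := by
    ext y
    · simp [Aff.mul_g]
    · rw [Aff.mul_f]
      simp only
      by_cases hy : y ∈ range (HNNExtension.of : K →* HNNExtension K A B θ)
      · obtain ⟨k, rfl⟩ := hy
        rw [← map_mul, cK_of, cK_of, cK_of, mul_assoc]; ring
      · rw [cK_zero θ φ _ hy, cK_zero θ φ _ hy, cK_zero, add_zero]
        rintro ⟨k, hk⟩
        apply hy
        refine ⟨k * x⁻¹, ?_⟩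
        rw [map_mul, hk, map_inv, mul_inv_cancel_right]

theorem cK_inv {x : K} (hx : x ∈ Inv φ) (y : HNNExtension K A B θ) : cK θ φ x y = 0 := by
  by_cases hy : y ∈ range (HNNExtension.of : K →* HNNExtension K A B θ)
  · obtain ⟨k, rfl⟩ := hy
    rw [cK_of, hx k, sub_self]
  · exact cK_zero θ φ _ hy

/-- Extension of a function along an HNN extension. -/
theorem hnn_step (hA : A ≤ Inv φ) (hB : B ≤ Inv φ) : ∃ ψ : HNNExtension K A B θ → ℝ,
    Ext HNNExtension.of φ ψ ∧ HNNExtension.t ∈ Inv ψ := by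
  set f : K →* Aff (HNNExtension K A B θ) := thK θ φ with hf
  have hfx : ∀ x, f x = ⟨HNNExtension.of x, cK θ φ x⟩ := fun x => rfl
  set Θ : HNNExtension K A B θ →* Aff (HNNExtension K A B θ) :=
    HNNExtension.lift f ⟨HNNExtension.t, fun _ => 0⟩ (by
      intro a
      ext y
      · rw [Aff.mul_g, Aff.mul_g, hfx, hfx]
        exact HNNExtension.t_mul_of a
      · rw [Aff.mul_f, Aff.mul_f, hfx, hfx]
        simp only
        rw [cK_inv θ φ (hA a.2), cK_inv θ φ (hB (θ a).2)]) with hΘ
  have hg : ∀ y, (Θ y).g = y := by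
    intro y
    have h : (Aff.fst.comp Θ) = MonoidHom.id _ := by
      refine HNNExtension.hom_ext ?_ ?_
      · ext k
        show (Θ (HNNExtension.of k)).g = HNNExtension.of k
        rw [hΘ, HNNExtension.lift_of, hfx]
      · show (Θ HNNExtension.t).g = HNNExtension.t
        rw [hΘ, HNNExtension.lift_t]
    exact DFunLike.congr_fun h y
  obtain ⟨ψ, h1, h2⟩ := integrate Θ hg (φ 1)
  have hof : ∀ x y, ψ (y * HNNExtension.of x) - ψ y = cK θ φ x y := by
    intro x y
    rw [h2, hΘ, HNNExtension.lift_of, hfx]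
  refine ⟨ψ, ⟨fun k => ?_, fun x y hy => ?_⟩, fun y => ?_⟩
  · have := hof k 1
    rw [one_mul, h1, show (1 : HNNExtension K A B θ) = HNNExtension.of 1 from (map_one _).symm,
      cK_of, one_mul] at this
    linarith
  · have := hof x y
    rw [cK_zero θ φ x hy] at this
    linarith
  · have := h2 HNNExtension.t y
    rw [hΘ, HNNExtension.lift_t] at this
    simp only at this
    linarith

end hnn

theorem BB_le {s : ℕ → ℝ} (hs : ∀ k, |s k| ≤ 1) (w : FreeGroup Idx) {ε : ℝ}
    (h : ε ≤ |BB s w|) : ε ≤ |coef w.toWord| ∧ ε ≤ |s (typ w.toWord)| := by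
  unfold BB at h
  rw [abs_mul] at h
  have h1 := (coef_le w.toWord).1
  have h2 := hs (typ w.toWord)
  have h3 := abs_nonneg (coef w.toWord)
  have h4 := abs_nonneg (s (typ w.toWord))
  constructor <;> nlinarith

/-- The main extension step. -/
theorem step {G : Type} [Group G] (φ : G → ℝ) (h01 : ∀ g, φ g ∈ Icc (0 : ℝ) 1) (x : ℕ → G) :
    ∃ (H : Type) (_ : Group H) (ι : G →* H) (ψ : H → ℝ) (a b t u : H),
      Function.Injective ι ∧ Ext ι φ ψ ∧ (∀ y, ψ y ∈ Icc (0 : ℝ) 1) ∧
      a ∈ Inv ψ ∧ b ∈ Inv ψ ∧ u ∈ Inv ψ ∧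
      (∀ k, ι (x k) * (u⁻¹ * cw a b k * u) = Ww a b t k) ∧
      ∀ (ε : ℝ) (hε : 0 < ε), (Dset ψ t ε).encard ≤
        ∑ w ∈ (coef_finite hε).toFinset, (Dset φ (x (typ w.toWord)) ε).encard := by
  obtain ⟨φ2, hE, ha, hb, hd, ht⟩ := free_step φ x
  -- the two free families
  set a0 : KK G := Monoid.Coprod.inr fa with ha0
  set b0 : KK G := Monoid.Coprod.inr fb with hb0
  set t0 : KK G := Monoid.Coprod.inr ft with ht0
  set dk : ℕ → KK G := fun k => (Monoid.Coprod.inl (x k))⁻¹ * Monoid.Coprod.inr (Ww fa fb ft k)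
    with hdk
  set f1 : FreeGroup ℕ →* KK G := FreeGroup.lift (cw a0 b0) with hf1
  set f2 : FreeGroup ℕ →* KK G := FreeGroup.lift dk with hf2
  have hi1 : Function.Injective f1 := by
    have e : (Monoid.Coprod.snd : KK G →* F3).comp f1 = FreeGroup.lift (cw fa fb) := by
      refine FreeGroup.ext_hom _ _ fun k => ?_
      rw [MonoidHom.comp_apply, hf1, FreeGroup.lift_apply_of, FreeGroup.lift_apply_of, map_cw, ha0,
        hb0, Monoid.Coprod.snd_apply_inr, Monoid.Coprod.snd_apply_inr]
    refine Function.Injective.of_comp (f := (Monoid.Coprod.snd : KK G →* F3)) ?_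
    rw [← MonoidHom.coe_comp, e]
    exact cw_free
  have hi2 : Function.Injective f2 := by
    have e : (Monoid.Coprod.snd : KK G →* F3).comp f2 = FreeGroup.lift (Ww fa fb ft) := by
      refine FreeGroup.ext_hom _ _ fun k => ?_
      rw [MonoidHom.comp_apply, hf2, FreeGroup.lift_apply_of, FreeGroup.lift_apply_of, hdk]
      simp
    refine Function.Injective.of_comp (f := (Monoid.Coprod.snd : KK G →* F3)) ?_
    rw [← MonoidHom.coe_comp, e]
    exact Ww_free
  set θ : f1.range ≃* f2.range :=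
    (MonoidHom.ofInjective hi1).symm.trans (MonoidHom.ofInjective hi2) with hθ
  have hA : f1.range ≤ Inv φ2 := by
    rw [hf1, FreeGroup.range_lift_eq_closure, Subgroup.closure_le]
    rintro _ ⟨k, rfl⟩
    show cw a0 b0 k ∈ Inv φ2
    exact mul_mem (mul_mem (pow_mem ha _) hb) (inv_mem (pow_mem ha _))
  have hB : f2.range ≤ Inv φ2 := by
    rw [hf2, FreeGroup.range_lift_eq_closure, Subgroup.closure_le]
    rintro _ ⟨k, rfl⟩
    exact hd k
  obtain ⟨ψ, hE2, htt⟩ := hnn_step θ φ2 hA hB
  set ι : KK G →* HNNExtension (KK G) f1.range f2.range θ := HNNExtension.of with hι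
  have hιinj : Function.Injective ι := HNNExtension.of_injective θ
  have hE3 := hE.comp hE2
  refine ⟨HNNExtension (KK G) f1.range f2.range θ, inferInstance, ι.comp Monoid.Coprod.inl,
    fun y => clamp (ψ y), ι a0, ι b0, ι t0, HNNExtension.t⁻¹, ?_, ⟨fun g => ?_, fun g y hy => ?_⟩,
    fun y => clamp_mem _, fun y => ?_, fun y => ?_, inv_mem fun y => ?_, fun k => ?_,
    fun ε hε => ?_⟩
  · rw [MonoidHom.coe_comp]
    exact hιinj.comp Monoid.Coprod.inl_injective
  · show clamp (ψ _) = φ g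
    rw [hE3.1, clamp_eq (h01 g)]
  · show clamp (ψ _) = clamp (ψ y)
    rw [hE3.2 g y hy]
  · show clamp (ψ (y * ι a0)) = clamp (ψ y)
    by_cases hy : y ∈ range ι
    · obtain ⟨k, rfl⟩ := hy
      rw [← map_mul, hE2.1, hE2.1, ha k]
    · rw [hE2.2 a0 y hy]
  · show clamp (ψ (y * ι b0)) = clamp (ψ y)
    by_cases hy : y ∈ range ι
    · obtain ⟨k, rfl⟩ := hy
      rw [← map_mul, hE2.1, hE2.1, hb k]
    · rw [hE2.2 b0 y hy]
  · show clamp (ψ (y * HNNExtension.t)) = clamp (ψ y)
    rw [htt y]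
  · -- the relation
    have hk1 : f1 (FreeGroup.of k) = cw a0 b0 k := by rw [hf1, FreeGroup.lift_apply_of]
    have hk2 : f2 (FreeGroup.of k) = dk k := by rw [hf2, FreeGroup.lift_apply_of]
    have hθk : ((θ ⟨cw a0 b0 k, ⟨FreeGroup.of k, hk1⟩⟩ : f2.range) : KK G) = dk k := by
      rw [hθ, MulEquiv.trans_apply]
      have e1 : (MonoidHom.ofInjective hi1).symm ⟨cw a0 b0 k, ⟨FreeGroup.of k, hk1⟩⟩ =
          FreeGroup.of k := by
        rw [MulEquiv.symm_apply_eq]
        ext
        rw [MonoidHom.ofInjective_apply]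
        exact hk1.symm
      rw [e1, MonoidHom.ofInjective_apply, hk2]
    have hconj := HNNExtension.equiv_eq_conj (φ := θ) ⟨cw a0 b0 k, ⟨FreeGroup.of k, hk1⟩⟩
    rw [hθk] at hconj
    simp only at hconj
    rw [inv_inv, ← map_cw, MonoidHom.comp_apply]
    change ι (Monoid.Coprod.inl (x k)) * (HNNExtension.t * ι (cw a0 b0 k) * HNNExtension.t⁻¹) = _
    change ι (dk k) = HNNExtension.t * ι (cw a0 b0 k) * HNNExtension.t⁻¹ at hconj
    rw [← hconj, ← map_mul, hdk]
    simp only [mul_inv_cancel_left]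
    rw [← map_Ww, ha0, hb0, ht0, ← map_Ww]
  · -- the count
    have hsub : Dset (fun y => clamp (ψ y)) (ι t0) ε ⊆ ι '' Dset φ2 t0 ε := by
      intro y hy
      have hy' : ε ≤ |clamp (ψ (y * ι t0)) - clamp (ψ y)| := hy
      have hy2 := hy'.trans (clamp_sub _ _)
      by_cases hr : y ∈ range ι
      · obtain ⟨k, rfl⟩ := hr
        rw [← map_mul, hE2.1, hE2.1] at hy2
        exact ⟨k, hy2, rfl⟩
      · rw [hE2.2 t0 y hr, sub_self, abs_zero] at hy2
        linarith
    have hsub2 : Dset φ2 t0 ε ⊆ ⋃ w ∈ (coef_finite hε).toFinset,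
        (fun g : G => (Monoid.Coprod.inl g * Monoid.Coprod.inr (zeta w⁻¹) : KK G)) ''
          Dset φ (x (typ w.toWord)) ε := by
      intro y hy
      have hy' : ε ≤ |φ2 (y * t0) - φ2 y| := hy
      rw [ht0, ht] at hy'
      by_cases hex : ∃ (g : G) (z : FreeGroup Idx), y = Monoid.Coprod.inl g *
          Monoid.Coprod.inr (zeta z)
      · obtain ⟨g, z, rfl⟩ := hex
        rw [bet_eq] at hy'
        have hs : ∀ k, |dl φ x g k| ≤ 1 := by
          intro k
          unfold dl
          have h1 := h01 (g * x k)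
          have h2 := h01 g
          rw [abs_le]
          constructor <;> linarith [h1.1, h1.2, h2.1, h2.2]
        obtain ⟨h1, h2⟩ := BB_le hs z⁻¹ hy'
        simp only [mem_iUnion]
        refine ⟨z⁻¹, ?_, g, h2, ?_⟩
        · rw [Set.Finite.mem_toFinset]; exact h1
        · simp only [inv_inv]
      · rw [bet_zero φ x hex, abs_zero] at hy'
        linarith
    refine (encard_le_encard hsub).trans ((encard_image_le _ _).trans
      ((encard_le_encard hsub2).trans ?_))
    refine (Finset.set_encard_biUnion_le _ _).trans ?_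
    exact Finset.sum_le_sum fun w _ => encard_image_le _ _

end Pool.Agent.SO
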