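import Pool.Agent.Lib.MP_b2dc7d_gt.HnnStep

set_option autoImplicit false
open Set

namespace Pool.Agent.SO

/-- generator symbols -/
inductive T : Type
  | base : T
  | gen (i : Fin 4) (l : ℕ → ℕ) (s : ℕ → ℕ → T) (b : ℕ → ℕ → Bool) : T

/-- codes of sequences of words -/
abbrev Sym := (ℕ → ℕ) × (ℕ → ℕ → T) × (ℕ → ℕ → Bool)

def T.mk (i : Fin 4) (σ : Sym) : T := T.gen i σ.1 σ.2.1 σ.2.2

theorem T.mk_inj {i j : Fin 4} {σ τ : Sym} (h : T.mk i σ = T.mk j τ) : i = j ∧ σ = τ := by
  unfold T.mk at h
  injection h with h1 h2 h3 h4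
  refine ⟨h1, ?_⟩
  rw [Prod.ext_iff, Prod.ext_iff]
  exact ⟨h2, h3, h4⟩

/-- a signed letter -/
def lett (b : Bool) (y : T) : FreeGroup T := if b then FreeGroup.of y else (FreeGroup.of y)⁻¹

/-- the word with number `k` in the sequence `σ` -/
def word (σ : Sym) (k : ℕ) : FreeGroup T :=
  ((List.range (σ.1 k)).map fun j => lett (σ.2.2 k j) (σ.2.1 k j)).prod

/-- rank of a symbol -/
noncomputable def rank : T → Ordinal.{0}
  | T.base => 0
  | T.gen _ _ s _ => ⨆ p : ℕ × ℕ, Order.succ (rank (s p.1 p.2))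

theorem rank_lt (i : Fin 4) (σ : Sym) (k j : ℕ) : rank (σ.2.1 k j) < rank (T.mk i σ) := by
  unfold T.mk
  rw [rank]
  refine lt_of_lt_of_le (Order.lt_succ _) ?_
  exact Ordinal.le_iSup (fun p : ℕ × ℕ => Order.succ (rank (σ.2.1 p.1 p.2))) (k, j)

/-- rank of a sequence -/
noncomputable def srank (σ : Sym) : Ordinal.{0} := rank (T.mk 0 σ)

theorem rank_mk (i : Fin 4) (σ : Sym) : rank (T.mk i σ) = srank σ := by
  unfold srank T.mk
  rw [rank, rank]

theorem word_congr {H : Type} [Group H] {π π' : T → H} (σ : Sym) (k : ℕ)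
    (h : ∀ j, π (σ.2.1 k j) = π' (σ.2.1 k j)) :
    FreeGroup.lift π (word σ k) = FreeGroup.lift π' (word σ k) := by
  unfold word
  rw [map_list_prod, map_list_prod, List.map_map, List.map_map]
  congr 1
  refine List.map_congr_left fun j _ => ?_
  simp only [Function.comp_apply, lett]
  split_ifs <;> simp [h]

/-- A model in which the relations for the sequences in `S` hold. -/
structure Mdl (S : Finset Sym) where
  Γ : Type
  [inst : Group Γ]
  π : T → Γ
  φ : Γ → ℝ
  h01 : ∀ y, φ y ∈ Icc (0 : ℝ) 1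
  hpos : ∀ n : ℤ, 1 ≤ n → φ (π T.base ^ n) = 1
  hneg : ∀ n : ℤ, n ≤ 0 → φ (π T.base ^ n) = 0
  hout : ∀ σ, σ ∉ S → ∀ i, π (T.mk i σ) = 1
  hrel : ∀ σ ∈ S, ∀ k, FreeGroup.lift π (word σ k) *
    ((π (T.mk 3 σ))⁻¹ * cw (π (T.mk 0 σ)) (π (T.mk 1 σ)) k * π (T.mk 3 σ)) =
      Ww (π (T.mk 0 σ)) (π (T.mk 1 σ)) (π (T.mk 2 σ)) k
  hinv : ∀ σ, ∀ i : Fin 4, i ≠ 2 → π (T.mk i σ) ∈ Inv φ
  hbase : ∀ ε : ℝ, 0 < ε → (Dset φ (π T.base) ε).encard ≤ 1
  hcard : ∀ σ ∈ S, ∀ (ε : ℝ) (hε : 0 < ε), (Dset φ (π (T.mk 2 σ)) ε).encard ≤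
    ∑ w ∈ (coef_finite hε).toFinset,
      (Dset φ (FreeGroup.lift π (word σ (typ w.toWord))) ε).encard

attribute [instance] Mdl.inst

theorem mdl_empty : Nonempty (Mdl ∅) := by
  classical
  refine ⟨{ Γ := Multiplicative ℤ
            π := fun y => match y with
              | T.base => Multiplicative.ofAdd 1
              | T.gen _ _ _ _ => 1
            φ := fun n => if 1 ≤ Multiplicative.toAdd n then 1 else 0
            h01 := fun y => by split_ifs <;> simp
            hpos := fun n hn => by simp [hn]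
            hneg := fun n hn => by
              have : ¬ (1 ≤ n) := by omega
              simp [this]
            hout := fun σ _ i => rfl
            hrel := fun σ hσ => absurd hσ (Finset.notMem_empty _)
            hinv := fun σ i hi => by
              show (1 : Multiplicative ℤ) ∈ _
              exact one_mem _
            hbase := fun ε hε => ?_
            hcard := fun σ hσ => absurd hσ (Finset.notMem_empty _) }⟩
  have : Dset (fun n : Multiplicative ℤ => if 1 ≤ Multiplicative.toAdd n then (1 : ℝ) else 0)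
      (Multiplicative.ofAdd 1) ε ⊆ {Multiplicative.ofAdd 0} := by
    intro y hy
    have hy' : ε ≤ |(if 1 ≤ Multiplicative.toAdd (y * Multiplicative.ofAdd 1) then (1 : ℝ) else 0) -
      (if 1 ≤ Multiplicative.toAdd y then (1 : ℝ) else 0)| := hy
    rw [toAdd_mul, toAdd_ofAdd] at hy'
    have key : Multiplicative.toAdd y = 0 := by
      by_contra hne
      by_cases h1 : 1 ≤ Multiplicative.toAdd y
      · rw [if_pos h1, if_pos (by omega), sub_self, abs_zero] at hy'
        linarith
      · rw [if_neg h1, if_neg (by omega), sub_self, abs_zero] at hy'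
        linarith
    rw [mem_singleton_iff]
    exact Multiplicative.toAdd.injective (by simpa using key)
  exact (encard_le_encard this).trans (by simp)

theorem mdl_insert (σ : Sym) (S : Finset Sym) [DecidableEq Sym] (hσ : σ ∉ S)
    (hmax : ∀ τ ∈ S, srank τ ≤ srank σ) (hM : Nonempty (Mdl S)) :
    Nonempty (Mdl (insert σ S)) := by
  classical
  obtain ⟨M⟩ := hM
  obtain ⟨H, hgrp, ι, ψ, a, b, t, u, hinj, hE, h01, ha, hb, hu, hrel, hcard⟩ :=
    step M.φ M.h01 (fun k => FreeGroup.lift M.π (word σ k))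
  set g : Fin 4 → H := fun i => if i = 0 then a else if i = 1 then b else if i = 2 then t else u
    with hg
  set π' : T → H := fun y => if h : ∃ i, y = T.mk i σ then g h.choose else ι (M.π y) with hπ'
  have hnew : ∀ i, π' (T.mk i σ) = g i := by
    intro i
    have h : ∃ j, T.mk i σ = T.mk j σ := ⟨i, rfl⟩
    rw [hπ']
    simp only
    rw [dif_pos h]
    have := (T.mk_inj h.choose_spec).1
    rw [← this]
  have hold : ∀ y, (∀ i, y ≠ T.mk i σ) → π' y = ι (M.π y) := by
    intro y hy
    rw [hπ']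
    simp only
    rw [dif_neg]
    rintro ⟨i, hi⟩
    exact hy i hi
  have hbase : π' T.base = ι (M.π T.base) := hold _ (fun i h => by unfold T.mk at h; injection h)
  -- words of old sequences and of σ
  have hwd : ∀ τ : Sym, srank τ ≤ srank σ → ∀ k, FreeGroup.lift π' (word τ k) =
      ι (FreeGroup.lift M.π (word τ k)) := by
    intro τ hτ k
    have h1 : FreeGroup.lift π' (word τ k) = FreeGroup.lift (fun y => ι (M.π y)) (word τ k) := by
      refine word_congr τ k fun j => hold _ fun i hi => ?_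
      have h2 := rank_lt 0 τ k j
      rw [rank_mk, hi, rank_mk] at h2
      exact absurd h2 (not_lt.mpr hτ)
    rw [h1]
    have h3 : FreeGroup.lift (fun y => ι (M.π y)) = ι.comp (FreeGroup.lift M.π) := by
      refine FreeGroup.ext_hom _ _ fun y => ?_
      simp
    rw [h3]; rfl
  have holdmk : ∀ τ, τ ≠ σ → ∀ i, π' (T.mk i τ) = ι (M.π (T.mk i τ)) := by
    intro τ hτ i
    refine hold _ fun j hj => hτ (T.mk_inj hj).2
  refine ⟨{ Γ := H
            inst := hgrp
            π := π'
            φ := ψ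
            h01 := h01
            hpos := fun n hn => by rw [hbase, ← map_zpow, hE.1]; exact M.hpos n hn
            hneg := fun n hn => by rw [hbase, ← map_zpow, hE.1]; exact M.hneg n hn
            hout := fun τ hτ i => ?_
            hrel := fun τ hτ k => ?_
            hinv := fun τ i hi => ?_
            hbase := fun ε hε => by rw [hbase, hE.encard hinj _ hε]; exact M.hbase ε hε
            hcard := fun τ hτ ε hε => ?_ }⟩
  · rw [Finset.mem_insert, not_or] at hτ
    rw [holdmk τ hτ.1, M.hout τ hτ.2, map_one]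
  · rw [Finset.mem_insert] at hτ
    rcases hτ with rfl | hτ
    · rw [hwd τ le_rfl, hnew, hnew, hnew, hnew]
      exact hrel k
    · have hne : τ ≠ σ := fun h => hσ (h ▸ hτ)
      rw [hwd τ (hmax τ hτ), holdmk τ hne, holdmk τ hne, holdmk τ hne, holdmk τ hne, ← map_cw,
        ← map_Ww, ← map_inv, ← map_mul, ← map_mul, ← map_mul, M.hrel τ hτ k]
  · by_cases hne : τ = σ
    · subst hne
      rw [hnew]
      fin_cases i
      · exact ha
      · exact hb
      · exact absurd rfl hi
      · exact hu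
    · rw [holdmk τ hne]
      intro y
      by_cases hy : y ∈ range ι
      · obtain ⟨k, rfl⟩ := hy
        rw [← map_mul, hE.1, hE.1, M.hinv τ i hi k]
      · exact hE.2 _ _ hy
  · rw [Finset.mem_insert] at hτ
    rcases hτ with rfl | hτ
    · rw [hnew]
      refine (hcard ε hε).trans (Finset.sum_le_sum fun w _ => ?_)
      rw [hwd τ le_rfl, hE.encard hinj _ hε]
    · have hne : τ ≠ σ := fun h => hσ (h ▸ hτ)
      rw [holdmk τ hne, hE.encard hinj _ hε]
      refine (M.hcard τ hτ ε hε).trans (Finset.sum_le_sum fun w _ => ?_)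
      rw [hwd τ (hmax τ hτ), hE.encard hinj _ hε]

theorem mdl_exists (S : Finset Sym) : Nonempty (Mdl S) := by
  classical
  refine Finset.induction_on_max_value srank S mdl_empty fun σ S hσ hmax hM => ?_
  exact mdl_insert σ S hσ hmax hM

end Pool.Agent.SO
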